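import Mathlib
import Pool.Agent.H.MP_9098dd_gt.C

set_option autoImplicit false

namespace Pool.Agent.Results.MP_9098dd_gt.Fin

open Set Pool.Agent.H.MP_9098dd_gt

universe u

/-- the selection principle with finitely many members from each family. -/
def SFin (X : Type u) [TopologicalSpace X] : Prop :=
  ∀ 𝒰 : ℕ → Set (Set X), (∀ n, DOm (𝒰 n)) →
    ∃ F : ℕ → Set (Set X), (∀ n, (F n).Finite ∧ F n ⊆ 𝒰 n) ∧ DOm (⋃ n, F n)

theorem result :
    (∀ (X : Type u) [TopologicalSpace X], SFin X → ∀ k : ℕ, 1 ≤ k → SFin (Fin k → X)) ↔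
      ¬ ∃ (T : Type u) (_ : PartialOrder T), FreeSuslin T :=
  main false

end Pool.Agent.Results.MP_9098dd_gt.Fin
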