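import Mathlib
import Pool.Agent.H.MP_9098dd_gt.C

set_option autoImplicit false

namespace Pool.Agent.Results.MP_9098dd_gt.One

open Set Pool.Agent.H.MP_9098dd_gt

universe u

/-- the selection principle with one member from each family. -/
def SOne (X : Type u) [TopologicalSpace X] : Prop :=
  ∀ 𝒰 : ℕ → Set (Set X), (∀ n, DOm (𝒰 n)) →
    ∃ U : ℕ → Set X, (∀ n, U n ∈ 𝒰 n) ∧ DOm (range U)

theorem iff_SS (X : Type u) [TopologicalSpace X] : SOne X ↔ SS true X := by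
  refine ⟨fun h 𝒰 h𝒰 => ?_, fun h 𝒰 h𝒰 => ?_⟩
  · obtain ⟨U, h1, h2⟩ := h 𝒰 h𝒰
    exact ⟨fun n => {U n}, fun n => ⟨Sm.sing _ _, singleton_subset_iff.mpr (h1 n)⟩,
      by rwa [iUnion_singleton_eq_range]⟩
  · obtain ⟨F, h1, h2⟩ := h 𝒰 h𝒰
    have h3 : ∀ n, ∃ U ∈ 𝒰 n, F n ⊆ {U} := by
      intro n
      rcases (F n).eq_empty_or_nonempty with h | ⟨U, hU⟩
      · obtain ⟨U, hU, _⟩ := (h𝒰 n).2.2.2 ∅ finite_empty (by simp)
        exact ⟨U, hU, h ▸ empty_subset _⟩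
      · exact ⟨U, (h1 n).2 hU, fun V hV => (h1 n).1 hV hU⟩
    choose U h4 h5 using h3
    refine ⟨U, h4, dom_of ?_ fun r W hW => ?_⟩
    · rintro _ ⟨n, rfl⟩
      exact ⟨(h𝒰 n).1 _ (h4 n), (h𝒰 n).2.2.1 _ (h4 n)⟩
    · obtain ⟨V, hV, hV'⟩ := h2.ex hW
      obtain ⟨n, hn⟩ := mem_iUnion.mp hV
      exact ⟨V, ⟨n, (h5 n hn).symm⟩, hV'⟩

theorem result :
    (∀ (X : Type u) [TopologicalSpace X], SOne X → ∀ k : ℕ, 1 ≤ k → SOne (Fin k → X)) ↔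
      ¬ ∃ (T : Type u) (_ : PartialOrder T), FreeSuslin T := by
  simp only [iff_SS]
  exact main true

end Pool.Agent.Results.MP_9098dd_gt.One
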